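import Pool.Agent.H614.KL.Bpf2

/-!
# Base-point-freeness of pluricanonical systems of images of fibred varieties

Let `W` be a normal projective variety of dimension `n`, for instance a projective manifold, `Δ` a
`ℚ`-divisor on `W`, for instance `0`, `f : V → W` a finite covering of degree `[K : L]`, and `h : V → Y` a
map onto a variety `Y` of any dimension in projective space, with `H` the pull-back of the hyperplane
class. Let `p` be a point of `W` at which `⌊r (K_W + Δ)⌋` is invertible, such that `h` is a morphism near
`f⁻¹(p)` and embeds the fibre `f⁻¹(p)` into `Y`.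

The theorem: if `K_V + f^* (⌊r (K_W + Δ)⌋ - K_W) - m H` is generated by its global sections at the points of
`f⁻¹(p)`, and the degree of `f` is at most `m + 1`, then `⌊r (K_W + Δ)⌋` is generated by its global
sections at `p`.

For `Δ = 0` and `r = 1`: if `K_V - m H` is globally generated, `h` embeds the fibres of `f`, and
`deg f ≤ m + 1`, then `K_W` is globally generated. So `W` satisfies the conclusion of the abundance
conjecture; it is not assumed that `K_W` is nef, `V → Y` can have fibres of positive dimension, and the
Kodaira dimension of `W` can be smaller than `n`. For instance, let `Y` be a projective manifold in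
projective space such that `K_Y - m H` is globally generated, `G` a group of automorphisms of `Y` without
fixed points, of order at most `m + 1`, which also acts in any way on a projective manifold `F` with trivial
canonical bundle. Then the canonical bundle of `W = (Y × F) / G` is globally generated, and
`κ(W) = ν(W) = dim Y` if `K_Y` is ample. The condition on the fibres cannot be omitted: let `Y` be the
Fermat curve of degree `6`, so that `K_Y = 3 H`, and `G` the group of order `3` which acts on one coordinate
of `Y` and by translations on an elliptic curve `F`; the canonical bundle of the elliptic surface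
`(Y × F) / G` has base points on its multiple fibres. (These remarks are not part of the Lean statement.)

If `h` is an embedding and `Δ = 0`, then this is close to `MP_5ff3c6_ag.BasePointsOfImages`. The point here
are the maps `h` with fibres of positive dimension, and the boundary.

Proof. The traces to `W` of the products of the global sections `ω_i` with the forms of degree `m` on `Y`
are sections of `⌊r (K_W + Δ)⌋`. Let `O` be a valuation ring of `ℂ(W)` which dominates the local ring of
`p`, and `ξ_j = x_j / λ`. Since the `ξ_j` are integral over `O`, the algebra `O[ξ]` is generated as an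
`O`-module by the monomials of degree `m` in `ξ`, if `[K : L] ≤ m + 1`. So the pull-back of a generator `η`
of `⌊r (K_W + Δ)⌋` at `p` is an `O`-linear combination of products as above. Its trace is `[K : L] η`; so the
trace of one of the products does not vanish at `p`.

The literal definitions of the starting repository (`Pool/Agent/Y172/Defs.lean`) are used: `y` is the
generic point of `W` (`NormalModel`), the prime divisors of `W` are the places `P` of its function field
`L` with `IsPrimeDivisor y P`, a `ℚ`-divisor is a function `Δ` of the places, and `IsSection y n r (r • Δ) θ`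
says that `θ` is a section of `r (K_W + Δ)`: an `r`-canonical form whose order is at least `- r Δ P` along
all `P`. `K` is the function field of `V`, and `Over Q P e` says that the place `Q` of `K` lies over `P`
with ramification index `e`.
-/

set_option autoImplicit false
set_option linter.overlappingInstances false

open FF Pool.Agent.W602.GT Pool.Agent.Y172

namespace Pool.Agent.Results.MP_97d78d_ag.BasePointFreeImages

section

variable {L : Type} [Field L] [Algebra ℂ L] {n M : ℕ}

/-- The point `p` lies on the projective variety with generic point `y`: all homogeneous equations of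
`y` hold for `p`. -/
def IsPoint (y : Fin (M + 1) → L) (p : Fin (M + 1) → ℂ) : Prop :=
  p ≠ 0 ∧ ∀ (e : ℕ) (F : MvPolynomial (Fin (M + 1)) ℂ), F.IsHomogeneous e →
    MvPolynomial.aeval y F = 0 → MvPolynomial.aeval p F = 0

/-- The prime divisor `P` passes through the point `p`: a form `B` which does not vanish at `p` does not
vanish along `P`, that is, its order at `P` is `deg B` times the minimum of the orders of the
coordinates. -/
def PassesThrough (P : Place ℂ L) (y : Fin (M + 1) → L) (p : Fin (M + 1) → ℂ) : Prop :=
  ∀ (e : ℕ) (B : MvPolynomial (Fin (M + 1)) ℂ), B.IsHomogeneous e → MvPolynomial.aeval p B ≠ 0 →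
    ∀ i, y i ≠ 0 → P.ord (MvPolynomial.aeval y B) ≤ e * P.ord (y i)

/-- The local ring `𝒪_(W, p)` of the point `p`: the functions `A(y) / B(y)`, `A` and `B` forms of the same
degree, `B(p) ≠ 0` (the definition in `Pool/Agent/H614/BF/Jet2.lean` is for several points). -/
abbrev localRing (y : Fin (M + 1) → L) (p : Fin (M + 1) → ℂ) : Subalgebra ℂ L :=
  Pool.Agent.H614.BF.localRing y (fun _ : Unit => p)

/-- `θ` is a section of `⌊r (K_W + Δ)⌋` in a neighbourhood of the point `p`. -/
def LocalSection (y : Fin (M + 1) → L) (Δ : Place ℂ L → ℚ) (r : ℕ) (p : Fin (M + 1) → ℂ)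
    (θ : (Fin n → Derivation ℂ L L) → L) : Prop :=
  IsPluri r θ ∧ ∀ P : Place ℂ L, IsPrimeDivisor y P → PassesThrough P y p →
    OrdGe P θ (-((r • Δ) P))

/-- `η` generates `⌊r (K_W + Δ)⌋` at the point `p`: the sections in a neighbourhood of `p` are the multiples
of `η` with functions in `𝒪_(W, p)`. -/
def Generates (y : Fin (M + 1) → L) (Δ : Place ℂ L → ℚ) (r : ℕ) (p : Fin (M + 1) → ℂ)
    (η : (Fin n → Derivation ℂ L L) → L) : Prop :=
  (∃ D, η D ≠ 0) ∧ ∀ θ : (Fin n → Derivation ℂ L L) → L, LocalSection y Δ r p θ →
    ∃ h ∈ localRing y p, ∀ D, θ D = h * η D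

end

section

variable {K L : Type} [Field K] [Algebra ℂ K] [Field L] [Algebra ℂ L] [Algebra L K]
  [IsScalarTower ℂ L K] {n N M : ℕ}

/-- The ring `𝒪_(W, p)[x_j / λ]`. It is the ring of the image of `V` in `W × Y` over `p`, in the chart
`λ ≠ 0`; if `h` embeds the fibre `f⁻¹(p)`, and `λ` does not vanish at the points of `f⁻¹(p)`, then it is the
semi-local ring of `V` at `f⁻¹(p)`. -/
abbrev coordRing (x : Fin N → K) (y : Fin (M + 1) → L) (p : Fin (M + 1) → ℂ) (lam : K) :
    Subalgebra (localRing y p) K :=
  Pool.Agent.H614.BF.coordRing x y (fun _ : Unit => p) lam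

/-- `ω` is a section of `K_V + f^* (⌊r (K_W + Δ)⌋ - K_W) - m H`, where `H` is the pull-back of the
hyperplane class of `Y`. For the `r`-canonical forms on `V` the class is
`r K_V - (r - 1) R + f^* ⌊r Δ⌋ - m H`, where `R` is the ramification divisor: the order of the products
`A(x) ω` at a prime divisor `Q` of `V` over the prime divisor `P` of `W`, with ramification index `e`, is
at least `(r - 1) (e - 1) - e ⌊r Δ P⌋`, for all monomials (hence for all forms) `A` of degree `m`. -/
def AdjointSection (y : Fin (M + 1) → L) (Δ : Place ℂ L → ℚ) (r m : ℕ) (x : Fin N → K)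
    (ω : (Fin n → Derivation ℂ K K) → K) : Prop :=
  IsPluri r ω ∧ ∀ (P : Place ℂ L), IsPrimeDivisor y P → ∀ (Q : Place ℂ K) (e : ℕ), Over Q P e →
    ∀ (f : Fin m → Fin N) (D : Fin n → Derivation ℂ K K), (∀ i, DerReg Q (D i)) →
      (∏ k, x (f k)) * ω D = 0 ∨
        ((r : ℤ) - 1) * ((e : ℤ) - 1) - e * ⌊r * Δ P⌋ ≤ Q.ord ((∏ k, x (f k)) * ω D)

/-- `V → W` is finite over `p`, and the linear form `λ` in the coordinates of `Y` does not vanish at the
points over `p`: the functions `x_j / λ` are integral over `𝒪_(W, p)`. -/
structure FiniteOver (x : Fin N → K) (y : Fin (M + 1) → L) (p : Fin (M + 1) → ℂ) (lam : K) :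
    Prop where
  ne : lam ≠ 0
  linear : ∃ α : Fin N → ℂ, lam = ∑ i, algebraMap ℂ K (α i) * x i
  integral : ∀ j, IsIntegral (localRing y p) (x j / lam)

/-- The pull-back of `η` is `∑ c_i λ ^ m ω_i`, with global sections `ω_i` of
`K_V + f^* (⌊r (K_W + Δ)⌋ - K_W) - m H` and `c_i` in `𝒪_(W, p)[x_j / λ]`. The value of the pull-back on
extensions `D'` to `K` of vector fields `D` of `L` is `η D`. -/
def PullBackGenerated (x : Fin N → K) (y : Fin (M + 1) → L) (Δ : Place ℂ L → ℚ) (r m : ℕ)
    (p : Fin (M + 1) → ℂ) (lam : K) (η : (Fin n → Derivation ℂ L L) → L) : Prop :=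
  ∃ (k : ℕ) (c : Fin k → K) (ω : Fin k → (Fin n → Derivation ℂ K K) → K),
    (∀ i, c i ∈ coordRing x y p lam) ∧ (∀ i, AdjointSection y Δ r m x (ω i)) ∧
    ∀ (D : Fin n → Derivation ℂ L L) (D' : Fin n → Derivation ℂ K K),
      (∀ i f, D' i (algebraMap L K f) = algebraMap L K (D i f)) →
      algebraMap L K (η D) = ∑ i, c i * (lam ^ m * ω i D')

end

/-- **Base-point-freeness of images.** Let `W` be a normal projective variety of dimension `n` with
generic point `y` and function field `L`, `Δ` a `ℚ`-divisor on `W`, `f : V → W` a finite covering with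
function field `K`, `[K : L] ≤ m + 1`, and `V ⇢ Y` a rational map onto a variety with generic point `x`.
Let `p` be a point of `W` such that the image of `V` in `W × Y` is finite over `p`, and let `η` be a
generator of `⌊r (K_W + Δ)⌋` at `p` whose pull-back is generated by the global sections of
`K_V + f^* (⌊r (K_W + Δ)⌋ - K_W) - m H`. Then some global section of `⌊r (K_W + Δ)⌋` generates it
at `p`. -/
theorem result {n m r N M : ℕ} {K : Type} [Field K] [Algebra ℂ K] [Algebra.EssFiniteType ℂ K]
    (hK : Algebra.trdeg ℂ K = n) {x : Fin N → K} (L : Type) [Field L] [Algebra ℂ L] [Algebra L K]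
    [IsScalarTower ℂ L K] [FiniteDimensional L K] {y : Fin (M + 1) → L} (hy : NormalModel y)
    {Δ : Place ℂ L → ℚ} (degree : Module.finrank L K ≤ m + 1) {p : Fin (M + 1) → ℂ}
    (hp : IsPoint y p) {lam : K} (finite : FiniteOver x y p lam)
    {η : (Fin n → Derivation ℂ L L) → L} (hη : IsPluri r η) (generator : Generates y Δ r p η)
    (generated : PullBackGenerated x y Δ r m p lam η) :
    ∃ θ : (Fin n → Derivation ℂ L L) → L, IsSection y n r (r • Δ) θ ∧ Generates y Δ r p θ := by
  obtain ⟨α, hα⟩ := finite.linear
  obtain ⟨k, c, ω, hc, hω, hsum⟩ := generated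
  exact Pool.Agent.H614.KL.bpf_pair hK hy degree hp finite.ne hα finite.integral hη generator hc
    hω hsum

end Pool.Agent.Results.MP_97d78d_ag.BasePointFreeImages
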