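import Pool.Agent.Helper320.PC.Main3

/-!
# Abundance for the images of products of curves of large gonality

Let `V = C 1 × ... × C n` be any product of smooth projective curves over `ℂ`, and let `γ i` be at
most the gonality of `C i` (the smallest degree of a map of `C i` onto the line). Let `V ⇢ W` be any
dominant rational map of finite degree onto a smooth projective variety; it need not be a quotient by
a group, and nothing is assumed on its ramification.

Let `d i` be the degree over `W` of the image of `V` in `W × C i`, that is the number of points of
`C i` which correspond to a general point of `W`. Let `I` be a set of factors with `2 d i < γ i` for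
`i ∈ I`, and let `e` be the degree of `V` over the image `W'` of `V` in `W × ∏ (i ∈ I) C i`. Suppose
that at most one factor is not in `I` (and then this factor may be any curve), or
`e + 3 ≤ γ i + γ j` for all `i ≠ j` not in `I`, and `e + 1 ≤ 2 γ i` for all `i` not in `I`.

Then `W` is uniruled or `κ(W) ≥ |I|`. In particular `κ(W) = n` if `2 d i < γ i` for all `i`, and `W` is
uniruled or `κ(W) ≥ n - 1` if `2 d i < γ i` for all `i` but one.

A projective manifold `X` with nef canonical bundle is not uniruled, and if
`κ(X) ≥ dim X - 3` then `K_X` is semiample (Kawamata, Lai). So `K_X` is semiample for all projective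
manifolds `X` with nef canonical bundle which are birational to such an image `W`, if at most three
factors are not in `I`.

Proof. The traces of the products `c 1 ... c n` of regular differentials `c i` of the curves are
canonical forms on `W`. If their ratios do not generate a field of transcendence degree at least `|I|`
then there is a vector field `D` on `W` which kills these ratios, but not all functions on the `C i`,
`i ∈ I`. This gives a linear relation between the values and the derivatives of the products of
regular differentials at the conjugates of the generic point of `V`. By the theorem of Riemann-Roch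
the regular differentials of `C i` separate a point to the first order from `d i - 1` points to the
second order, if `2 d i < γ i`; this holds over all extensions of the field of constants, by
specialisation. So the relation gives one without derivatives between the conjugates over `W'`, and
then `p_g(W') = 0`, and `W'` and `W` are uniruled as in `MP_e06174_ag.ImagesOfCurveProducts`.

The function-field language of the starting repository is used: a canonical form (`IsPluri 1`) on a
variety of dimension `n` is a function of `n` rational vector fields; it is regular at the prime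
divisor `P` (`Place`, `Divisorial`, `RegAt`) if its value on vector fields which are regular at `P` is
regular at `P`. `KodGe ℂ L n (fun _ => False) h` says that `κ(W) ≥ h` (`Pool/Agent/W602/GT`),
`IsUniruled ℂ L n` that `W` is uniruled (`Pool/Agent/W619/PQ/Defs.lean`).
-/

set_option autoImplicit false
set_option linter.overlappingInstances false

open FF Pool.Agent.W602.GT
open Pool.Agent.W619.PQ (IsUniruled)

namespace Pool.Agent.Results.MP_97d78d_ag.CurveProductImages

/-- `F` is the function field of a curve. -/
def IsCurveField (F : Type) [Field F] [Algebra ℂ F] : Prop :=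
  Algebra.EssFiniteType ℂ F ∧ Algebra.trdeg ℂ F = 1

/-- The gonality of the curve with the function field `F` is at least `γ`: all nonconstant functions
have degree at least `γ`. -/
def GonalityGe (F : Type) [Field F] [Algebra ℂ F] (γ : ℕ) : Prop :=
  ∀ t : F, Transcendental ℂ t → γ ≤ Module.finrank (IntermediateField.adjoin ℂ {t}) F

section

variable {K : Type} [Field K] [Algebra ℂ K] (L : Type) [Field L] [Algebra L K] {n : ℕ}

/-- The number `d` of the points of the curve with the function field `F` which correspond to a
general point of `W`: the degree over `L` of the compositum of `L` and `F`. -/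
noncomputable def factorDegree (F : IntermediateField ℂ K) : ℕ :=
  Module.finrank L (IntermediateField.adjoin L (F : Set K))

/-- The degree `e` of `V` over the image `W'` of `V` in the product of `W` and the curves with the
function fields `F i`, `i ∈ I`; the function field of `W'` is the compositum of `L` and the `F i`. -/
noncomputable def jointDegree (F : Fin n → IntermediateField ℂ K) (I : Finset (Fin n)) : ℕ :=
  Module.finrank (IntermediateField.adjoin L (⋃ i ∈ I, (F i : Set K))) K

end

/-- The Kodaira dimension of the smooth projective varieties of dimension `n` over `ℂ` with the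
function field `L` is at least `h`. -/
def KappaGe (L : Type) [Field L] [Algebra ℂ L] (n h : ℕ) : Prop :=
  KodGe ℂ L n (fun _ => False) h

/-- **Images of products of curves of large gonality.** Let `V` be the product of `n ≥ 1` curves with
the function fields `F i`, which are subfields of the function field `K` of `V`, of gonality at least
`γ i`, and let `V ⇢ W` be a dominant rational map of finite degree to a smooth projective variety with
function field `L`. Let `I` be a set of factors with `2 d i < γ i` for `i ∈ I`, such that for the
degree `e` of `V` over the image of `V` in `W × ∏ (i ∈ I) C i` the following holds: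
`e + 3 ≤ γ i + γ j` for all `i ≠ j` not in `I`, and `e + 1 ≤ 2 γ i` for all `i` not in `I`, or `I`
contains all factors but at most one. Then `W` is uniruled or `κ(W) ≥ |I|`. -/
theorem result {n : ℕ} (hn : 1 ≤ n) {K : Type} [Field K] [Algebra ℂ K]
    (hK : Algebra.trdeg ℂ K = n) (F : Fin n → IntermediateField ℂ K)
    (hF : ∀ i, IsCurveField (F i)) (hsup : ⨆ i, F i = ⊤)
    (γ : Fin n → ℕ) (hγ : ∀ i, GonalityGe (F i) (γ i))
    (L : Type) [Field L] [Algebra ℂ L] [Algebra L K] [IsScalarTower ℂ L K]
    [FiniteDimensional L K] (I : Finset (Fin n)) (hI : ∀ i ∈ I, 2 * factorDegree L (F i) < γ i)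
    (h1 : ∀ i j, i ∉ I → j ∉ I → i ≠ j → jointDegree L F I + 3 ≤ γ i + γ j)
    (h2 : (∀ i j, i ∉ I → j ∉ I → i = j) ∨ ∀ i, i ∉ I → jointDegree L F I + 1 ≤ 2 * γ i) :
    IsUniruled ℂ L n ∨ KappaGe L n I.card := by
  classical
  obtain ⟨m, rfl⟩ : ∃ m, n = m + 1 := ⟨n - 1, by omega⟩
  have hFF : ∀ i, IsFF ℂ (F i) := fun i => ⟨(hF i).1, (hF i).2⟩
  by_cases hrat : ∃ i, ∃ t : F i, IntermediateField.adjoin ℂ {t} = ⊤
  · obtain ⟨i, t, ht⟩ := hrat
    exact Or.inl (Pool.Agent.Helper320.PC.uniruled_of_rational hK F hsup L i t ht)
  have hrat' : ∀ i, ¬ ∃ t : F i, IntermediateField.adjoin ℂ {t} = ⊤ := fun i h => hrat ⟨i, h⟩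
  have hγ' := fun i => Pool.Agent.Helper320.PC.gonGe_max (hrat' i) (hγ i)
  have h1' : ∀ i j, i ∉ I → j ∉ I → i ≠ j →
      jointDegree L F I + 3 ≤ max (γ i) 2 + max (γ j) 2 := fun i j hi hj hij =>
    (h1 i j hi hj hij).trans (add_le_add (le_max_left _ _) (le_max_left _ _))
  have h2' : (∀ i j, i ∉ I → j ∉ I → i = j) ∨
      ∀ i, i ∉ I → jointDegree L F I + 1 ≤ 2 * max (γ i) 2 :=
    h2.imp id fun h i hi => (h i hi).trans (Nat.mul_le_mul_left 2 (le_max_left _ _))
  rcases Finset.eq_empty_or_nonempty I with hI0 | hI0
  · -- the geometric genus
    by_cases hg : ∀ ω : (Fin (m + 1) → Derivation ℂ L L) → L, IsPluri 1 ω →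
      (∀ P : Place ℂ L, Divisorial (m + 1) P → RegAt P ω) → ∀ D, ω D = 0
    · exact Or.inl (Pool.Agent.Helper320.PC.uniruled_main Pool.Agent.Helper320.PC.t_CORE2'
        Pool.Agent.Helper320.PC.t_SPF' hK F hsup L I (fun i => max (γ i) 2) hγ' _ rfl
        (fun i hi => by rw [hI0] at hi; exact absurd hi (Finset.notMem_empty i))
        (fun i _ => le_max_right _ _) h1' h2' hg).1
    · right
      push Not at hg
      obtain ⟨ω, hω, hreg, D, hne⟩ := hg
      rw [hI0, Finset.card_empty]
      refine ⟨1, one_pos, fun _ => ω, fun _ => ⟨hω, fun P hP D' hD' => ?_,
        fun P hP _ => hreg P hP⟩, D, hne, ?_⟩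
      · exact hreg P hP D' fun i => Pool.Agent.TH466.QG.derReg_of_log (hD' i)
      · exact algebraicIndependent_empty_type
  · exact Pool.Agent.Helper320.PC.kod_main hK F hsup L I hI0 (fun i => max (γ i) 2) hγ' _ rfl
      (fun i hi => lt_of_lt_of_le (hI i hi) (le_max_left _ _)) (fun i _ => le_max_right _ _)
      h1' h2'

end Pool.Agent.Results.MP_97d78d_ag.CurveProductImages
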