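import Pool.Agent.Helper320.PCH.MixK

/-!
# The Kodaira dimension of correspondences with products of a variety and curves

Let `Y` be any smooth projective variety over `ℂ` with `p_g(Y) > 0`, let `C 1, ..., C r` be smooth
projective curves, and let `X` be a smooth projective variety of dimension `n = dim Y + r`. Let `V` be
a correspondence between `X` and `Y × C 1 × ... × C r`: a variety with dominant rational maps of finite
degree to `X` and to this product, such that the map of `V` to `X × C 1 × ... × C r` is birational onto
its image. `X` need not be dominated by the product, and nothing is assumed on the ramification.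

For a set `S` of factors let `d(S)` be the degree over `X` of the image of `V` in
`X × ∏ (i ∈ S) C i`; so `d(∅) = 1`, and `d(all)` is the degree of `V` over `X`. Let the gonality of
`C i` be at least `μ i + 2`.

Simplest case: if for every nonempty set `J` of factors, with complement `J'`,
  `2 d(all) ≤ d(J') (1 + ∑ (i ∈ J) μ i)`,
then `κ(X) ≥ r = n - dim Y`. For `r = 1` the condition is that the gonality of the curve is more than
twice the degree of `V` over `X`. If `dim Y ≤ 3` and `K_X` is nef then `K_X` is semiample: by theorems
of Lai and Kawamata this is true if `κ(X) ≥ n - 3` (this remark is not part of the Lean statement).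

More generally, only some of the factors have to satisfy this: let `Λ` be a set of factors such that
`2 d(all) ≤ d(J') (1 + ∑ (i ∈ J) μ i)` for the sets `J` which meet `Λ`, and
`d(all) ≤ d(J') (1 + ∑ (i ∈ J) μ i)` for all nonempty `J`. Then `κ(X) ≥ |Λ|`. In the theorem the factors
can moreover be divided into successive blocks: `b i` is the number of the block of the factor `i`.

Example. Let the finite group `G` act on `Y` and on the curves, and let `X` be birational to
`(Y × C 1 × ... × C r) / G`. If `G` acts faithfully on the product of the curves, then
`d(S) = |G| / |G(S)|`, where `G(S)` is the group of the elements which act trivially on `C i` for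
`i ∈ S`. So `κ(X) ≥ r` if for all nonempty `J` twice the order of `G(J')` is at most
`1 + ∑ (i ∈ J) μ i`.

Proof. Let `L = ℂ(X)` and `K = ℂ(V)`. The traces of the products of a nonzero canonical form of `Y` and
regular differentials of the curves are canonical forms on `X`. If their ratios do not generate a field
of transcendence degree at least `|Λ|` then a vector field on `X` kills all these ratios but not all
functions on `C l`, for some `l ∈ Λ`. This gives a linear relation between the values and the
derivatives of the products of regular differentials of the curves at the conjugates of the generic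
point of `V` over `L`. By the theorem of Riemann-Roch the regular differentials of `C i` separate a
point from `μ i` others, counted with multiplicities, over all extensions of the field of constants.
The marriage theorem of Hall distributes the zeros such that all terms of the relation vanish but one,
since a conjugate with the same coordinates in all the curves is the generic point itself.

The function-field language of the starting repository is used: a form (`IsPluri N`) on a variety of
dimension `n` is a function of `n` rational vector fields; `KodGe ℂ L n (fun _ => False) h` says that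
`κ(X) ≥ h`: there are regular `N`-canonical forms, `N ≥ 1`, whose ratios contain `h` algebraically
independent functions (`Pool/Agent/W602/GT`).
-/

set_option autoImplicit false
set_option linter.overlappingInstances false

open FF Pool.Agent.W602.GT

namespace Pool.Agent.Results.MP_97d78d_ag.MixedCorrespondences

/-- The smooth projective varieties of dimension `n` with the function field `L` have a nonzero
regular canonical form: `p_g > 0`. -/
def GenusPos (L : Type) [Field L] [Algebra ℂ L] (n : ℕ) : Prop :=
  ∃ ω : (Fin n → Derivation ℂ L L) → L, IsPluri 1 ω ∧
    (∀ P : Place ℂ L, Divisorial n P → RegAt P ω) ∧ ∃ D, ω D ≠ 0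

/-- `F` is the function field of a curve. -/
def IsCurveField (F : Type) [Field F] [Algebra ℂ F] : Prop :=
  Algebra.EssFiniteType ℂ F ∧ Algebra.trdeg ℂ F = 1

/-- The gonality of the curve with the function field `F` is at least `γ`: all nonconstant functions
have degree at least `γ`. -/
def GonalityGe (F : Type) [Field F] [Algebra ℂ F] (γ : ℕ) : Prop :=
  ∀ t : F, Transcendental ℂ t → γ ≤ Module.finrank (IntermediateField.adjoin ℂ {t}) F

/-- The degree `d(S)` over `X` of the image of `V` in the product of `X` and the curves with the
function fields `F i`, `i ∈ S`: the degree over `L` of the compositum of `L` and these fields. -/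
noncomputable def imageDegree {K : Type} [Field K] [Algebra ℂ K] (L : Type) [Field L]
    [Algebra L K] {r : ℕ} (F : Fin r → IntermediateField ℂ K) (S : Finset (Fin r)) : ℕ :=
  Module.finrank L (IntermediateField.adjoin L (⋃ i ∈ S, (F i : Set K)))

/-- The Kodaira dimension of the smooth projective varieties of dimension `n` over `ℂ` with the
function field `L` is at least `h`. -/
def KappaGe (L : Type) [Field L] [Algebra ℂ L] (n h : ℕ) : Prop :=
  KodGe ℂ L n (fun _ => False) h

/-- **Correspondences with products of a variety and curves of large gonality.** Let `V` be a variety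
of dimension `d + r` with function field `K`, let `V ⇢ Y × ∏ C i` be a dominant rational map of finite
degree to the product of a smooth projective variety `Y` of dimension `d` with `p_g(Y) > 0` and with
function field `M`, and `r` curves with function fields `F i`, of gonality at least `μ i + 2`; and let
`V ⇢ X` be a dominant rational map of finite degree to a smooth projective variety with function field
`L`, such that `V ⇢ X × ∏ C i` is birational onto its image. Let the factors be divided into blocks by
`b`, and let `Λ` be a set of factors, such that for all `k` and all nonempty sets `J` of factors in the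
block `k`, the degrees `d = d({i | b i ≤ k})` and `d' = d({i | b i ≤ k} \ J)` satisfy:
`d ≤ d' (1 + ∑ (i ∈ J) μ i)`; `2 d ≤ d' (1 + ∑ (i ∈ J) μ i)` if `J` meets `Λ`; and
`2 d ≤ d' (2 + ∑ (i ∈ J) μ i)` if a factor in a later block is in `Λ`. Then `κ(X) ≥ |Λ|`. -/
theorem result {d r : ℕ} {K : Type} [Field K] [Algebra ℂ K] [Algebra.EssFiniteType ℂ K]
    (hK : Algebra.trdeg ℂ K = (d + r : ℕ)) (M : IntermediateField ℂ K)
    (hM : Algebra.EssFiniteType ℂ M ∧ Algebra.trdeg ℂ M = d) (hY : GenusPos M d)
    (F : Fin r → IntermediateField ℂ K) (hF : ∀ i, IsCurveField (F i))
    (halg : Algebra.IsAlgebraic (M ⊔ ⨆ i, F i : IntermediateField ℂ K) K)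
    (L : Type) [Field L] [Algebra ℂ L] [Algebra L K] [IsScalarTower ℂ L K]
    [FiniteDimensional L K] (hgen : IntermediateField.adjoin L (⋃ i, (F i : Set K)) = ⊤)
    (μ : Fin r → ℕ) (hμ : ∀ i, GonalityGe (F i) (μ i + 2)) (b : Fin r → ℕ) (Λ : Finset (Fin r))
    (h1 : ∀ (k : ℕ) (J : Finset (Fin r)), J.Nonempty → (∀ i ∈ J, b i = k) →
      imageDegree L F (Finset.univ.filter fun i => b i ≤ k) ≤
        imageDegree L F (Finset.univ.filter fun i => b i ≤ k ∧ i ∉ J) * (∑ i ∈ J, μ i + 1))
    (h2 : ∀ (k : ℕ) (J : Finset (Fin r)), (∃ l ∈ J, l ∈ Λ) → (∀ i ∈ J, b i = k) →
      2 * imageDegree L F (Finset.univ.filter fun i => b i ≤ k) ≤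
        imageDegree L F (Finset.univ.filter fun i => b i ≤ k ∧ i ∉ J) * (∑ i ∈ J, μ i + 1))
    (h3 : ∀ k : ℕ, (∃ l ∈ Λ, k < b l) → ∀ J : Finset (Fin r), J.Nonempty → (∀ i ∈ J, b i = k) →
      2 * imageDegree L F (Finset.univ.filter fun i => b i ≤ k) ≤
        imageDegree L F (Finset.univ.filter fun i => b i ≤ k ∧ i ∉ J) * (∑ i ∈ J, μ i + 2)) :
    KappaGe L (d + r) Λ.card := by
  have _hFF : ∀ i, IsFF ℂ (F i) := fun i => ⟨(hF i).1, (hF i).2⟩
  have _hMe : Algebra.EssFiniteType ℂ M := hM.1
  obtain ⟨η, hη, hreg, hη0⟩ := hY
  exact Pool.Agent.Helper320.PCH.mixK hK M hM.2 η hη hreg hη0 F (fun _ => ∅)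
    (fun z => halg.isAlgebraic z) L hgen b μ (fun i t ht _ => hμ i t ht) (fun _ => False)
    (fun _ _ _ _ ⟨_, _, hp, _⟩ => (Finset.notMem_empty _ hp).elim) Λ h1 h2 h3

end Pool.Agent.Results.MP_97d78d_ag.MixedCorrespondences
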